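import Pool.Agent.Lib_helper48.TD.D2
import Pool.Agent.Lib_helper90.Heart.Gram

/-!
# Residual representations in general: primitive representations and reflections
-/

set_option autoImplicit false

namespace Pool.Agent.NF

open Matrix

section Prim

variable {k : Type*} [Field k] {Γ : Type*} [Group Γ] {D : ℕ}

/-- There is no proper system of imprimitivity: if the space is the direct sum of nonzero subspaces
indexed by the cosets of a subgroup `Q` and permuted accordingly, then `Q` is the whole group. -/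
def Primitive (ρ : Γ →* Matrix (Fin D) (Fin D) k) : Prop :=
  ∀ (Q : Subgroup Γ) (M : Γ ⧸ Q → Submodule k (Fin D → k)), iSupIndep M → ⨆ c, M c = ⊤ →
    (∀ c, M c ≠ ⊥) → (∀ (g : Γ) c, ∀ x ∈ M c, (ρ g).mulVec x ∈ M (g • c)) → Q = ⊤

/-- The linear operators of a matrix representation. -/
theorem pr_end (ρ : Γ →* Matrix (Fin D) (Fin D) k) :
    ∃ R : Γ →* Module.End k (Fin D → k), ∀ g w, R g w = (ρ g).mulVec w :=
  ⟨(Matrix.toLinAlgEquiv' (R := k) (n := Fin D)).toMonoidHom.comp ρ, fun _ _ => rfl⟩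

theorem pr_dual (f : Fin D → k) :
    ∃ F : Module.Dual k (Fin D → k), (∀ w, F w = f ⬝ᵥ w) ∧ (f ≠ 0 → F ≠ 0) := by
  refine ⟨dotProductBilin k k f, fun w => rfl, ?_⟩
  intro hf h
  apply hf
  funext i
  have h1 := LinearMap.congr_fun h (Pi.single i 1)
  rw [LinearMap.zero_apply] at h1
  change f ⬝ᵥ (Pi.single i 1) = 0 at h1
  rw [dotProduct_single, mul_one] at h1
  exact h1

/-- A subalgebra that contains a matrix of rank one and leaves no proper subspace invariant is
everything. -/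
theorem pr_algebra (B : Subalgebra k (Matrix (Fin D) (Fin D) k)) {v f : Fin D → k} (hv : v ≠ 0)
    (hf : f ≠ 0) (h : vecMulVec v f ∈ B)
    (irr : ∀ W : Submodule k (Fin D → k), (∀ x ∈ B, ∀ w ∈ W, x.mulVec w ∈ W) → W = ⊥ ∨ W = ⊤) :
    B = ⊤ := by
  obtain ⟨F, hF, hF0⟩ := pr_dual f
  let e := (Matrix.toLinAlgEquiv' (R := k) (n := Fin D))
  have he : ∀ (x : Matrix (Fin D) (Fin D) k) w, e x w = x.mulVec w := fun x w => rfl
  let A : Submodule k (Module.End k (Fin D → k)) :=
    (Subalgebra.toSubmodule B).comap (e.symm.toLinearMap)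
  have memA : ∀ x, x ∈ A ↔ e.symm x ∈ B := fun x => Iff.rfl
  have hE : e (vecMulVec v f) = F.smulRight v := by
    apply LinearMap.ext
    intro w
    rw [he, Matrix.vecMulVec_mulVec, LinearMap.smulRight_apply, hF]
    funext i
    simp [mul_comm]
  have hall := TD.all_of_rank_one A (by
    intro a ha b hb
    rw [memA] at ha hb ⊢
    rw [map_mul]
    exact B.mul_mem ha hb) (by
    intro W hW
    refine irr W ?_
    intro x hx w hw
    have h1 : e x ∈ A := by
      rw [memA, AlgEquiv.symm_apply_apply]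
      exact hx
    exact hW _ h1 w hw) hv (hF0 hf) (by
    rw [memA, ← hE, AlgEquiv.symm_apply_apply]
    exact h)
  rw [eq_top_iff]
  intro x _
  have := hall (e x)
  rwa [memA, AlgEquiv.symm_apply_apply] at this

/-- **Primitive representations.** A subalgebra normalised by a primitive representation which
spans the matrices is everything as soon as it contains a matrix of rank one. -/
theorem primitive_hQ (ρ : Γ →* Matrix (Fin D) (Fin D) k)
    (hspan : Submodule.span k (Set.range ρ) = ⊤) (hprim : Primitive ρ)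
    (B : Subalgebra k (Matrix (Fin D) (Fin D) k)) (hB : ∀ g, ∀ x ∈ B, ρ g * x * ρ g⁻¹ ∈ B)
    (v f : Fin D → k) (hv : v ≠ 0) (hf : f ≠ 0) (h : vecMulVec v f ∈ B) : B = ⊤ := by
  obtain ⟨R, hR⟩ := pr_end ρ
  have irr : ∀ W : Submodule k (Fin D → k), (∀ g, ∀ w ∈ W, R g w ∈ W) → W = ⊥ ∨ W = ⊤ :=
    fun W hW => Heart.irreducible_of_span ρ hspan W fun g w hw => by
      rw [← hR]
      exact hW g w hw
  obtain ⟨F, hF, hF0⟩ := pr_dual f
  obtain ⟨M, hM⟩ := TD.blocks irr hv (hF0 hf)
  have hQ : TD.Qd R v F = ⊤ := by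
    refine hprim _ M hM.ind hM.top hM.ne ?_
    intro g b x hx
    rw [← hM.map, ← hR]
    exact Submodule.mem_map_of_mem hx
  refine pr_algebra B hv hf h ?_
  intro W hW
  refine TD.irr_of_top irr hv (hF0 hf) hQ W ?_
  intro g w hw
  have h2 := hW _ (hB g _ h) w hw
  have h3 : (ρ g * vecMulVec v f * ρ g⁻¹).mulVec w = F (R g⁻¹ w) • R g v := by
    rw [← Matrix.mulVec_mulVec, ← Matrix.mulVec_mulVec, Matrix.vecMulVec_mulVec, hF, hR, hR]
    have h4 : (MulOpposite.op (f ⬝ᵥ (ρ g⁻¹).mulVec w)) • v = (f ⬝ᵥ (ρ g⁻¹).mulVec w) • v := by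
      funext i
      simp [mul_comm]
    rw [h4, Matrix.mulVec_smul]
  rw [h3] at h2
  exact h2

/-- The conjugates of an element which differs from `1` by a matrix of rank one generate all
matrices as soon as they leave no proper subspace invariant. -/
theorem adjoin_of_irr (ρ : Γ →* Matrix (Fin D) (Fin D) k) (s : Γ) {v f : Fin D → k} (hv : v ≠ 0)
    (hf : f ≠ 0) (hs : ρ s = 1 + vecMulVec v f)
    (irr : ∀ W : Submodule k (Fin D → k),
      (∀ g, ∀ w ∈ W, (ρ g * ρ s * ρ g⁻¹).mulVec w ∈ W) → W = ⊥ ∨ W = ⊤) :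
    Algebra.adjoin k (Set.range fun γ => ρ γ * ρ s * ρ γ⁻¹) = ⊤ := by
  refine pr_algebra _ hv hf ?_ ?_
  · have h1 : ρ s ∈ Algebra.adjoin k (Set.range fun γ => ρ γ * ρ s * ρ γ⁻¹) := by
      apply Algebra.subset_adjoin
      refine ⟨1, ?_⟩
      simp
    have h2 : vecMulVec v f = ρ s - 1 := by rw [hs, add_sub_cancel_left]
    rw [h2]
    exact Subalgebra.sub_mem _ h1 (Subalgebra.one_mem _)
  · intro W hW
    exact irr W fun g w hw => hW _ (Algebra.subset_adjoin ⟨g, rfl⟩) w hw

/-- Transvections and reflections whose directions contain all nonzero elements of a lattice of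
vectors (for example `𝔽_q ^ D`, if the image contains `Sp_D(𝔽_q)`) leave no proper subspace
invariant. -/
theorem irr_of_transitive (ρ : Γ →* Matrix (Fin D) (Fin D) k) (s : Γ)
    (J : Matrix (Fin D) (Fin D) k) (hJ : ∀ w : Fin D → k, (∀ x, x ⬝ᵥ J.mulVec w = 0) → w = 0)
    (hsim : ∀ γ, ∃ c : k, c ≠ 0 ∧ ∀ x y : Fin D → k,
      (ρ γ).mulVec x ⬝ᵥ J.mulVec ((ρ γ).mulVec y) = c * (x ⬝ᵥ J.mulVec y))
    (v : Fin D → k) (a : k) (ha : a ≠ 0)
    (hs : ∀ w, (ρ s).mulVec w = w + (a * (v ⬝ᵥ J.mulVec w)) • v)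
    (T : AddSubgroup (Fin D → k)) (hT : Submodule.span k (T : Set (Fin D → k)) = ⊤)
    (htrans : ∀ w ∈ T, w ≠ 0 → ∃ (γ : Γ) (c : k), c ≠ 0 ∧ (ρ γ).mulVec v = c • w)
    (W : Submodule k (Fin D → k)) (hW : ∀ g, ∀ w ∈ W, (ρ g * ρ s * ρ g⁻¹).mulVec w ∈ W) :
    W = ⊥ ∨ W = ⊤ := by
  have key : ∀ t ∈ T, t ∈ W ∨ ∀ w ∈ W, t ⬝ᵥ J.mulVec w = 0 := by
    intro t ht
    by_cases ht0 : t = 0
    · exact Or.inl (ht0 ▸ W.zero_mem)
    by_cases htW : t ∈ W
    · exact Or.inl htW
    refine Or.inr fun w hw => ?_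
    obtain ⟨γ, c, hc, hγ⟩ := htrans t ht ht0
    obtain ⟨c', hc', hsim'⟩ := hsim γ
    have h1 := hW γ w hw
    rw [← Matrix.mulVec_mulVec, ← Matrix.mulVec_mulVec, hs, Matrix.mulVec_add,
      Matrix.mulVec_smul] at h1
    have h2 : (ρ γ).mulVec ((ρ γ⁻¹).mulVec w) = w := by
      rw [Matrix.mulVec_mulVec, ← map_mul, mul_inv_cancel, map_one, Matrix.one_mulVec]
    rw [h2] at h1
    have h3 := W.sub_mem h1 hw
    rw [add_sub_cancel_left, hγ, smul_smul] at h3
    have h4 : a * (v ⬝ᵥ J.mulVec ((ρ γ⁻¹).mulVec w)) * c = 0 := by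
      by_contra hne
      apply htW
      have h5 := W.smul_mem (a * (v ⬝ᵥ J.mulVec ((ρ γ⁻¹).mulVec w)) * c)⁻¹ h3
      rwa [smul_smul, inv_mul_cancel₀ hne, one_smul] at h5
    have h5 : v ⬝ᵥ J.mulVec ((ρ γ⁻¹).mulVec w) = 0 := by
      rcases mul_eq_zero.1 h4 with h | h
      · rcases mul_eq_zero.1 h with h | h
        · exact absurd h ha
        · exact h
      · exact absurd h hc
    have h6 := hsim' v ((ρ γ⁻¹).mulVec w)
    rw [h2, h5, mul_zero, hγ, smul_dotProduct, smul_eq_mul] at h6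
    exact (mul_eq_zero.1 h6).resolve_left hc
  by_cases hall : ∀ t ∈ T, t ∈ W
  · refine Or.inr ?_
    rw [eq_top_iff, ← hT, Submodule.span_le]
    exact hall
  · push Not at hall
    obtain ⟨u, hu, huW⟩ := hall
    refine Or.inl ?_
    rw [eq_bot_iff]
    intro w hw
    rw [Submodule.mem_bot]
    apply hJ
    have h7 : ∀ t ∈ T, t ⬝ᵥ J.mulVec w = 0 := by
      intro t ht
      rcases key t ht with h | h
      · have h8 : t + u ∉ W := fun h9 => huW (by
          have := W.sub_mem h9 h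
          rwa [add_sub_cancel_left] at this)
        have h10 := ((key (t + u) (T.add_mem ht hu)).resolve_left h8) w hw
        have h11 := ((key u hu).resolve_left huW) w hw
        rw [add_dotProduct, h11, add_zero] at h10
        exact h10
      · exact h w hw
    intro x
    have hx : x ∈ Submodule.span k (T : Set (Fin D → k)) := by rw [hT]; exact Submodule.mem_top
    induction hx using Submodule.span_induction with
    | mem x hx => exact h7 x hx
    | zero => rw [zero_dotProduct]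
    | add x y _ _ hx hy => rw [add_dotProduct, hx, hy, add_zero]
    | smul b x _ hx => rw [smul_dotProduct, hx, smul_zero]

end Prim

section Lift

variable {C : Type*} [Field C] (A : ValuationSubring C) {Γ : Type*} [Group Γ] {D : ℕ}

/-- Lifting of the statement that the conjugates of `s` generate all matrices. -/
theorem lift_adjoin (ρ : Γ →* Matrix (Fin D) (Fin D) C)
    (ρ' : Γ →* Matrix (Fin D) (Fin D) (IsLocalRing.ResidueField A))
    (htr : ∀ γ, ∃ t : A, (t : C) = (ρ γ).trace ∧ IsLocalRing.residue A t = (ρ' γ).trace)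
    (s : Γ) (hadj : Algebra.adjoin (IsLocalRing.ResidueField A)
      (Set.range fun γ => ρ' γ * ρ' s * ρ' γ⁻¹) = ⊤) :
    Algebra.adjoin C (Set.range fun γ => ρ γ * ρ s * ρ γ⁻¹) = ⊤ := by
  classical
  set S : Submonoid Γ := Submonoid.closure (Set.range fun γ : Γ => γ * s * γ⁻¹) with hS
  have himg : ∀ {K : Type _} [Field K] (r : Γ →* Matrix (Fin D) (Fin D) K),
      Submodule.span K (Set.range (r.comp S.subtype)) = ⊤ ↔
        Algebra.adjoin K (Set.range fun γ => r γ * r s * r γ⁻¹) = ⊤ := by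
    intro K _ r
    have h1 : (Set.range (r.comp S.subtype) : Set (Matrix (Fin D) (Fin D) K)) =
        Submonoid.closure (Set.range fun γ => r γ * r s * r γ⁻¹) := by
      have h2 : (Set.range fun γ => r γ * r s * r γ⁻¹) = r '' (Set.range fun γ => γ * s * γ⁻¹) := by
        rw [← Set.range_comp]
        congr 1
        funext γ
        simp
      rw [h2, ← MonoidHom.map_mclosure, ← hS]
      ext x
      simp
    rw [h1, ← Algebra.adjoin_eq_span, Algebra.toSubmodule_eq_top]
  rw [← himg] at hadj ⊢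
  obtain ⟨x, hx⟩ := Heart.gram_of_span (ρ'.comp S.subtype) hadj
  choose t ht1 ht2 using htr
  refine Heart.span_of_gram (ρ.comp S.subtype) x ?_
  set G : Matrix (Fin D × Fin D) (Fin D × Fin D) A := Matrix.of fun a b => t ((x a * x b : S) : Γ)
    with hG
  have e1 : (Matrix.of fun a b : Fin D × Fin D => ((ρ.comp S.subtype) (x a * x b)).trace) =
      A.subtype.mapMatrix G := by
    ext a b
    exact (ht1 _).symm
  have e2 : (Matrix.of fun a b : Fin D × Fin D => ((ρ'.comp S.subtype) (x a * x b)).trace) =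
      (IsLocalRing.residue A).mapMatrix G := by
    ext a b
    exact (ht2 _).symm
  rw [e1, ← RingHom.map_det]
  rw [e2, ← RingHom.map_det] at hx
  intro h0
  have h1 : G.det = 0 := Subtype.ext h0
  rw [h1, map_zero] at hx
  exact hx rfl

end Lift

section NS

/-- An element no power of which is scalar gives nonscalar elements in all subgroups of finite
index. -/
theorem nonscalar_of_element {C : Type*} [Field C] {Γ : Type*} [Group Γ] {D : ℕ}
    (ρ : Γ →* Matrix (Fin D) (Fin D) C) (σ : Γ)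
    (hσ : ∀ e : ℕ, 0 < e → ∀ c : C, ρ σ ^ e ≠ c • (1 : Matrix (Fin D) (Fin D) C))
    (H : Subgroup Γ) [H.FiniteIndex] : ∃ h ∈ H, ∀ c : C, ρ h ≠ c • 1 := by
  obtain ⟨n, hn, hmem⟩ : ∃ n : ℕ, 0 < n ∧ σ ^ n ∈ H := by
    obtain ⟨n, hn, _, h⟩ := H.exists_pow_mem_of_index_ne_zero Subgroup.FiniteIndex.index_ne_zero σ
    exact ⟨n, hn, h⟩
  exact ⟨σ ^ n, hmem, fun c h => hσ n hn c (by rw [← map_pow, h])⟩

end NS

end Pool.Agent.NF
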